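import Mathlib
import Pool.Agent.H84.ML.KerK
import Pool.Agent.H84.ML.Gal
import Pool.Agent.H84.L.A3_N157_AW_Dat
import Pool.Agent.H84.L.A3_N600_NS_Pa
import Pool.Agent.H84.L.A3_N600_NS_SemA
import Pool.Agent.H84.L.A3_N70_AW_Rl
import Pool.Agent.H84.L.A3_N70_EP_Stm
import Pool.Agent.H84.L.A7_T2H67_SA_Cl
import Pool.Agent.H84.L.A7_T2H67_SA_Cl2
import Pool.Agent.H84.L.A7_T2H67_SA_Theta
import Pool.Agent.H84.L.A9_W5h46_MW_All
import Pool.Agent.H84.L.A9_W5h46_MW_Defs
import Pool.Agent.H84.L.A9_W5h46_MW_Done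
import Pool.Agent.H84.L.A9_W5h46_MW_M
import Pool.Agent.H84.L.A9_W5h93_MX_Real
import Pool.Agent.H84.L.S8_H391R2_T4_Nod
import Pool.Agent.H84.L.S8_H391R2_T4_Sem
import Pool.Agent.H84.L.S8_H484R2_Cont
import Pool.Agent.H84.L.S8_TH444_ML_Defs
import Pool.Agent.H84.L.S8_TH444_TW_Cls
import Pool.Agent.H84.L.S8_TH444_TW_RSK
import Pool.Agent.H84.L.S8_W200_IG_Fam
import Pool.Agent.H84.L.S8_W200_IG_HF
import Pool.Agent.H84.L.S8_W200_IJ_SA
import Pool.Agent.H84.L.S8_Y60_DC_StmSp
import Pool.Agent.H84.L.S8_Y60_DC_Tens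
import Pool.Agent.H84.L.S8_Y676_DSP_Simple

/-!
# Malle's conjecture for the groups `C₂ ^ (X / V) ⋊ X` and arbitrary extensions `X`

Let `X` be a finite group, `W ≤ V ≤ X` subgroups, and let `G` be the group `C₂ ^ (X / V) ⋊ X`, acting
on `X / W × {0, 1}` by `(x W, b) ↦ (h x W, a (x V) b)`. For `V = W` this is the wreath product
`C₂ ≀ X` for the action of `X` on `X / W`, for `V = W = 1` the wreath product `C₂ ≀ X` for the regular
action of `X`. Suppose that `W` is contained in a core-free subgroup `U` of `X` with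
`16 [X : U] ([X : U] + 1) ≤ [X : V]`.

The file `Pool/Agent/H84/ML/DefK.lean` defines a class `KernelClass D` of finite groups; `D` consists
of two large sets of natural numbers. It contains, for example, the groups `A ≀ S_n`, for all finite
groups `A` with trivial centre and all large multiples `n` of `|Out A|`, and for all `n ≥ n₀(A)` if
`Inn A` has a complement in `Aut A`, the groups `A ≀ A_n` for almost all `n` in this case, complete
groups which are regular over `ℚ`, and all groups whose composition factors are alternating groups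
`A_d`, `5 ≤ d ≠ 6`, and it is closed under direct products and factors, characteristic extensions and
wreath products `T ≀ S_n`.

Suppose that the normal subgroup `N` of `X` is in the class `KernelClass D`. There is no condition on
the extension `1 → N → X → X / N → 1`. For every number field `K` the number of isomorphism classes of
extensions of `K` with the permutation group `G` and discriminant of norm at most `B` is asymptotic to
`c B ^ (1 / [V : W])` with `c > 0` if `X / N` is a Galois group over `K`, and there are no such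
extensions otherwise. Hence Malle's conjecture for `G` is true, over all number fields, if and only if
`X / N` is a Galois group over all number fields. This is the case if `X / N` is in the
class `Peelable`, for example solvable with abelian Sylow subgroups.
-/

set_option autoImplicit false

open Filter
open Pool.Agent.H84.ML

namespace Pool.Agent.Results.MP_a3214d_nt.ArbitraryKernels

/-- `Γ` is a Galois group over `K`. -/
def IsGaloisGroupOver (K Γ : Type) [Field K] [Group Γ] : Prop :=
  ∃ (L : Type) (_ : Field L) (_ : Algebra K L), IsGalois K L ∧ Nonempty (Γ ≃* (L ≃ₐ[K] L))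

/-- `G ≤ S_d` is, up to a bijection `f` of `{1, ..., d}` with `X / W × {0, 1}`, the group
`C₂ ^ (X / V) ⋊ X`: it consists of all permutations `(x W, b) ↦ (h x W, a (x V) b)`, where `h ∈ X` and
`a` is a function from `X / V` to the group of the permutations of `{0, 1}`. -/
def IsPartialWreath {X : Type} [Group X] (V W : Subgroup X) {d : ℕ}
    (G : Subgroup (Equiv.Perm (Fin d))) : Prop :=
  ∃ f : Fin d ≃ (X ⧸ W) × Bool, ∀ π : Equiv.Perm (Fin d), π ∈ G ↔
    ∃ (h : X) (a : X ⧸ V → Equiv.Perm Bool), ∀ (i : Fin d) (x : X), (f i).1 = (x : X ⧸ W) →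
      f (π i) = (((h * x : X) : X ⧸ W), a (x : X ⧸ V) (f i).2)

/-- The fields `L` between `K` and its algebraic closure, of degree `d` over `K`, whose Galois group,
acting on the embeddings, is `G` (up to numbering), and whose relative discriminant has norm at most
`B` (that is, `|d_L| ≤ B |d_K| ^ d`). -/
def Ext (K : Type) [Field K] [NumberField K] (d : ℕ) (G : Subgroup (Equiv.Perm (Fin d)))
    (B : ℝ) : Set (IntermediateField K (AlgebraicClosure K)) :=
  {L | Module.finrank K L = d ∧
    (∃ e : (L →ₐ[K] AlgebraicClosure K) ≃ Fin d, ∀ π : Equiv.Perm (Fin d),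
      π ∈ G ↔ ∃ σ : AlgebraicClosure K ≃ₐ[K] AlgebraicClosure K,
        ∀ φ : L →ₐ[K] AlgebraicClosure K, e (σ.toAlgHom.comp φ) = π (e φ)) ∧
    ∃ h : NumberField L,
      ((|@NumberField.discr L _ h| : ℤ) : ℝ) ≤ B * ((|NumberField.discr K| : ℤ) : ℝ) ^ d}

/-- `N(K, G; B)`: the number of these fields up to `K`-isomorphism. -/
noncomputable def N (K : Type) [Field K] [NumberField K] (d : ℕ)
    (G : Subgroup (Equiv.Perm (Fin d))) (B : ℝ) : ℕ :=
  Nat.card (Quot fun L L' : Ext K d G B => Nonempty (L.1 ≃ₐ[K] L'.1))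

/-- The conclusion of Malle's conjecture for `G`, over all number fields: there is `a > 0` such that
for every number field `K` there are `c > 0` and `b ≥ 1` with
`N(K, G; B) ~ c B ^ a (log B) ^ (b - 1)`. -/
def Malle (d : ℕ) (G : Subgroup (Equiv.Perm (Fin d))) : Prop :=
  ∃ a : ℝ, 0 < a ∧ ∀ (K : Type) [Field K] [NumberField K], ∃ (c : ℝ) (b : ℕ), 0 < c ∧ 1 ≤ b ∧
    Tendsto (fun B : ℝ => (N K d G B : ℝ) / (B ^ a * Real.log B ^ (b - 1))) atTop (nhds c)

/-- The index of a permutation: the sum of `l - 1` over the lengths `l` of its cycles. -/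
def ind {d : ℕ} (π : Equiv.Perm (Fin d)) : ℕ := (π.cycleType.map (fun l => l - 1)).sum

/-- The minimal index of the elements `π ≠ 1` of `G`; Malle's constant is `a(G) = 1 / minInd G`. -/
noncomputable def minInd {d : ℕ} (G : Subgroup (Equiv.Perm (Fin d))) : ℕ :=
  sInf {k : ℕ | ∃ π ∈ G, π ≠ 1 ∧ ind π = k}

/-- Malle's constant `b(K, G)`: the number of orbits of the absolute Galois group of `K` on the conjugacy
classes of the elements of `G` of minimal index; here `σ` maps the class of `π` to the class of `π ^ m`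
if `σ ζ = ζ ^ m` for all roots of unity `ζ` of order dividing `|G|`. -/
noncomputable def malleB (K : Type) [Field K] {d : ℕ} (G : Subgroup (Equiv.Perm (Fin d))) : ℕ :=
  Nat.card (Quot fun π π' : {π : Equiv.Perm (Fin d) // π ∈ G ∧ π ≠ 1 ∧ ind π = minInd G} =>
    ∃ g ∈ G, ∃ (σ : AlgebraicClosure K ≃ₐ[K] AlgebraicClosure K) (m : ℕ),
      (∀ ζ : AlgebraicClosure K, ζ ^ Nat.card G = 1 → σ ζ = ζ ^ m) ∧ π'.1 = g * π.1 ^ m * g⁻¹)

/-- Malle's conjecture for `G` over the number field `K`, with Malle's constants: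
`N(K, G; B) ~ c B ^ a(G) (log B) ^ (b(K, G) - 1)` with `c > 0`. -/
def StrongMalle (K : Type) [Field K] [NumberField K] (d : ℕ) (G : Subgroup (Equiv.Perm (Fin d))) :
    Prop :=
  ∃ c : ℝ, 0 < c ∧ Tendsto (fun B : ℝ => (N K d G B : ℝ) /
    (B ^ (1 / (minInd G : ℝ)) * Real.log B ^ (malleB K G - 1))) atTop (nhds c)

/-- Malle's constants are `a(G) = 1 / r` and `b(K, G) = 1`; if `Γ` is a Galois group over `K` then
`N(K, G; B) ~ c B ^ (1 / r)` with `c > 0`, and otherwise there is no extension of `K` with group `G`, and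
`N(K, G; B) = 0`; Malle's conjecture for `G` over `K`, with Malle's constants, holds if and only if `Γ`
is a Galois group over `K`. -/
def Criterion (K : Type) [Field K] [NumberField K] (Γ : Type) [Group Γ] (d : ℕ)
    (G : Subgroup (Equiv.Perm (Fin d))) (r : ℕ) : Prop :=
  (minInd G = r ∧ malleB K G = 1) ∧
  (IsGaloisGroupOver K Γ →
    ∃ c : ℝ, 0 < c ∧ Tendsto (fun B : ℝ => (N K d G B : ℝ) / B ^ (1 / (r : ℝ))) atTop (nhds c)) ∧
  (¬ IsGaloisGroupOver K Γ → ∀ B : ℝ, Ext K d G B = ∅ ∧ N K d G B = 0) ∧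
  (StrongMalle K d G ↔ IsGaloisGroupOver K Γ)

/-- `W ≤ V ≤ X`, and `W` is contained in a core-free subgroup `U` of `X` such that
`16 [X : U] ([X : U] + 1) ≤ [X : V]`. -/
def IsAdmissible {X : Type} [Group X] (V W : Subgroup X) : Prop :=
  W ≤ V ∧ ∃ U : Subgroup X, W ≤ U ∧ U.normalCore = ⊥ ∧ 16 * U.index * (U.index + 1) ≤ V.index

/-- Malle's conjecture for `G` is decided by `Γ`: `Criterion` holds over all number fields, and
Malle's conjecture for `G`, over all number fields, is equivalent to the realizability of `Γ` over all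
number fields; it is true if `Γ` is in the class `Peelable`. -/
def Decided (Γ : Type) [Group Γ] (d : ℕ) (G : Subgroup (Equiv.Perm (Fin d))) (r : ℕ) : Prop :=
  (∀ (K : Type) [Field K] [NumberField K], Criterion K Γ d G r) ∧
  (Malle d G ↔ ∀ (K : Type) [Field K] [NumberField K], IsGaloisGroupOver K Γ) ∧
  (Peelable Γ → Malle d G)

/-- `N` is isomorphic to the direct product of the wreath products `A i ≀ S_(n i)`, where `A i` is a
nontrivial finite group with trivial centre, and, for every `i`, `n i` is a multiple of `|Out (A i)|`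
and `n i ≥ ((3 |Aut (A i)| + 2)!) ^ 3`, or the group of inner automorphisms of `A i` has a complement
in `Aut (A i)` and `n i ≥ ((3 |A i| + 2)!) ^ 3`; the index of `N` is at most `(n i - 3)!` for one
`i`. -/
def IsWreathKernel {X : Type} [Group X] (N : Subgroup X) : Prop :=
  ∃ (ι : Type) (_ : Finite ι) (A : ι → Type) (_ : ∀ i, Group (A i)) (n : ι → ℕ),
    (∀ i, Centreless (A i)) ∧
    (∀ i, ((∃ C : Subgroup (MulAut (A i)), IsCompl C (InnerAut (A i))) ∧
        ((3 * Nat.card (A i) + 2).factorial) ^ 3 ≤ n i) ∨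
      ((InnerAut (A i)).index ∣ n i ∧
        ((3 * Nat.card (MulAut (A i)) + 2).factorial) ^ 3 ≤ n i)) ∧
    Nonempty (N ≃* (∀ i, Wreath (A i) (n i))) ∧ ∃ i, N.index ≤ (n i - 3).factorial

theorem consts (K : Type) [Field K] {X : Type} [Group X] [Finite X] (V W : Subgroup X)
    (hV : IsAdmissible V W) (d : ℕ) (G : Subgroup (Equiv.Perm (Fin d))) (hG : IsPartialWreath V W G) :
    minInd G = W.relIndex V ∧ malleB K G = 1 := by
  obtain ⟨hle, U, hWU, hU, hc⟩ := hV
  have hyp := Pool.Agent.W5h46.MW.rest.hyp X V W U hle hWU hU hc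
  obtain ⟨h1, h2⟩ := Pool.Agent.W5h46.MW.index_W hyp (G := G) hG
  have h3 : minInd G = W.relIndex V := h1.csInf_eq
  refine ⟨h3, ?_⟩
  obtain ⟨π₀, hπ, hπ1, hπi⟩ := h1.1
  unfold malleB
  rw [Nat.card_eq_one_iff_unique]
  refine ⟨⟨?_⟩, ⟨Quot.mk _ ⟨π₀, hπ, hπ1, ?_⟩⟩⟩
  · rintro ⟨x⟩ ⟨y⟩
    apply Quot.sound
    obtain ⟨g, hg, he⟩ := h2 x.1 x.2.1 y.1 y.2.1 (x.2.2.2.trans h3) (y.2.2.2.trans h3)
    refine ⟨g, hg, 1, 1, fun ζ _ => by simp, ?_⟩
    rw [pow_one]
    exact he
  · rw [h3]
    exact hπi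

theorem criterion (K : Type) [Field K] [NumberField K] {X Γ : Type} [Group X] [Finite X] [Group Γ]
    (p : X →* Γ) (hs : Function.Surjective p) (hp : Pool.Agent.TH444.TW.RSK K p) (V W : Subgroup X) (hV : IsAdmissible V W) (d : ℕ)
    (G : Subgroup (Equiv.Perm (Fin d))) (hG : IsPartialWreath V W G) :
    Criterion K Γ d G (W.relIndex V) := by
  have hcst := consts K V W hV d G hG
  obtain ⟨hle, U, hWU, hU, hc⟩ := hV
  have hpos : IsGaloisGroupOver K Γ → ∃ c : ℝ, 0 < c ∧
      Tendsto (fun B : ℝ => (N K d G B : ℝ) / B ^ (1 / (W.relIndex V : ℝ))) atTop (nhds c) := by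
    intro hΓ
    exact Pool.Agent.W5h46.MW.asymp_isoW Pool.Agent.W5h46.MW.rest K X V W U hle hWU hU hc
      (gal_of_rsk K p hs hp hΓ) G hG
  have hneg : ¬ IsGaloisGroupOver K Γ → ∀ B : ℝ, Ext K d G B = ∅ ∧ N K d G B = 0 := by
    intro hΓ B
    have hemp : Ext K d G B = ∅ := by
      rw [Set.eq_empty_iff_forall_notMem]
      intro L hL
      obtain ⟨M, hM⟩ := Pool.Agent.W5h46.MW.gal_of_cnt Pool.Agent.W5h46.MW.rest K X V W U hle hWU hU
        hc (G := G) hG (B := B) (L := L) hL
      exact hΓ (Pool.Agent.W5h93.MX.isG_of_gal K p hs hM)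
    refine ⟨hemp, ?_⟩
    have : IsEmpty (Ext K d G B) := Set.isEmpty_coe_sort.2 hemp
    have h0 : IsEmpty (Quot fun L L' : Ext K d G B => Nonempty (L.1 ≃ₐ[K] L'.1)) :=
      ⟨fun q => Quot.ind (β := fun _ => False) (fun L => this.false L) q⟩
    exact Nat.card_of_isEmpty
  refine ⟨hcst, hpos, hneg, ?_, ?_⟩
  · rintro ⟨c, hc0, hlim⟩
    by_contra hΓ
    have h1 : Tendsto (fun B : ℝ => (N K d G B : ℝ) /
        (B ^ (1 / (minInd G : ℝ)) * Real.log B ^ (malleB K G - 1))) atTop (nhds 0) := by
      simp only [(hneg hΓ _).2, Nat.cast_zero, zero_div]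
      exact tendsto_const_nhds
    exact hc0.ne' (tendsto_nhds_unique hlim h1)
  · intro hΓ
    obtain ⟨c, hc0, hlim⟩ := hpos hΓ
    refine ⟨c, hc0, ?_⟩
    rw [hcst.1, hcst.2]
    simpa using hlim

theorem malle_iff {Γ : Type} [Group Γ] {d : ℕ} {G : Subgroup (Equiv.Perm (Fin d))} {r : ℕ}
    (hr : 0 < r) (h : ∀ (K : Type) [Field K] [NumberField K], Criterion K Γ d G r) :
    Malle d G ↔ ∀ (K : Type) [Field K] [NumberField K], IsGaloisGroupOver K Γ := by
  have hr' : (0 : ℝ) < r := by exact_mod_cast hr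
  constructor
  · rintro ⟨a, ha, hM⟩ K _ _
    by_contra hΓ
    obtain ⟨c, b, hc, -, hlim⟩ := hM K
    have h0 := (h K).2.2.1 hΓ
    have h1 : Tendsto (fun B : ℝ => (N K d G B : ℝ) / (B ^ a * Real.log B ^ (b - 1))) atTop
        (nhds 0) := by
      simp only [(h0 _).2, Nat.cast_zero, zero_div]
      exact tendsto_const_nhds
    exact hc.ne' (tendsto_nhds_unique hlim h1)
  · intro hΓ
    refine ⟨1 / (r : ℝ), by positivity, fun K _ _ => ?_⟩
    obtain ⟨c, hc0, hlim⟩ := (h K).2.1 (hΓ K)
    refine ⟨c, 1, hc0, le_rfl, ?_⟩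
    simpa using hlim

theorem relIndex_pos {X : Type} [Group X] [Finite X] (V W : Subgroup X) : 0 < W.relIndex V :=
  Nat.pos_of_ne_zero (Subgroup.index_ne_zero_of_finite (H := W.subgroupOf V))

/-- the trivial subgroups -/
theorem admissible_bot {X : Type} [Group X] (U : Subgroup X) (hU : U.normalCore = ⊥)
    (hc : 16 * U.index * (U.index + 1) ≤ Nat.card X) :
    IsAdmissible (⊥ : Subgroup X) (⊥ : Subgroup X) :=
  ⟨le_rfl, U, bot_le, hU, by rw [Subgroup.index_bot]; exact hc⟩

theorem relIndex_bot' (X : Type) [Group X] : (⊥ : Subgroup X).relIndex (⊥ : Subgroup X) = 1 :=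
  Subgroup.relIndex_self _

theorem decided_of {Γ : Type} [Group Γ] [Finite Γ] {d : ℕ} {G : Subgroup (Equiv.Perm (Fin d))}
    {r : ℕ} (hr : 0 < r) (h : ∀ (K : Type) [Field K] [NumberField K], Criterion K Γ d G r) :
    Decided Γ d G r :=
  ⟨h, malle_iff hr h, fun hY => (malle_iff hr h).2 fun K _ _ => isG_of_peelable K Γ hY⟩

end Pool.Agent.Results.MP_a3214d_nt.ArbitraryKernels

open Pool.Agent.Results.MP_a3214d_nt.ArbitraryKernels in
/-- First part: `X` is any finite group with a normal subgroup `N` in the class `KernelClass D`;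
Malle's conjecture for the permutation groups `C₂ ^ (X / V) ⋊ X` on `X / W × {0, 1}`, `W ≤ V`
admissible, and for the wreath products `C₂ ≀ (X × S_n)` (regular action) is decided by `X / N`.
Second part: examples of kernels for which also the wreath product `C₂ ≀ X` for the regular action
(`V = W = 1`) is admissible. Third part: solvable groups with abelian Sylow subgroups are in the
class `Peelable`. -/
theorem Pool.Agent.Results.MP_a3214d_nt.ArbitraryKernels.result :
    (∃ D : Kernels, D.Large ∧ ∀ (X : Type) [Group X] [Finite X] (N : Subgroup X) [N.Normal],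
      KernelClass D N →
      (∀ V W : Subgroup X, IsAdmissible V W → ∀ (d : ℕ) (G : Subgroup (Equiv.Perm (Fin d))),
        IsPartialWreath V W G → Decided (X ⧸ N) d G (W.relIndex V)) ∧
      (∀ n : ℕ, 10 ≤ n → Nat.card X ≤ n → ∀ (d : ℕ) (G : Subgroup (Equiv.Perm (Fin d))),
        IsPartialWreath (⊥ : Subgroup (X × Equiv.Perm (Fin n))) ⊥ G →
          Decided (X ⧸ N) d G 1)) ∧
    (∀ (X : Type) [Group X] [Finite X] (N : Subgroup X) [N.Normal], IsWreathKernel N →
      (∀ D : Kernels, D.Large → KernelClass D N) ∧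
      IsAdmissible (⊥ : Subgroup X) (⊥ : Subgroup X)) ∧
    (∀ (Y : Type) [Group Y] [Finite Y], Group.IsSolvable Y →
      (∀ (p : ℕ) [Fact p.Prime] (P : Sylow p Y), ∀ x ∈ P, ∀ y ∈ P, x * y = y * x) →
      Peelable Y) := by
  refine ⟨⟨kdeg, kdeg_large, fun X _ _ N _ hN => ?_⟩, ?_, fun Y _ _ h2 h3 =>
    peelable_of_sylow Y h2 h3⟩
  · have hN' : KernelClass kdeg (QuotientGroup.mk' N).ker :=
      KernelClass.iso _ _ (MulEquiv.subgroupCongr (QuotientGroup.ker_mk' N).symm) hN
    refine ⟨fun V W hV d G hG => decided_of (relIndex_pos V W) fun K _ _ => ?_,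
      fun n hn hX d G hG => decided_of one_pos fun K _ _ => ?_⟩
    · exact criterion K _ (QuotientGroup.mk'_surjective N)
        (kernel_rsk K _ (QuotientGroup.mk'_surjective N) hN').2 V W hV d G hG
    · obtain ⟨U, hU, hc⟩ := core_prod16 X n hn hX
      have h1 := (kernel_rsk K _ (QuotientGroup.mk'_surjective N) hN').2
      have h2 : Pool.Agent.TH444.TW.RSK K (MonoidHom.fst X (Equiv.Perm (Fin n))) :=
        (fst_cls K X n).rsk
      have h3 := criterion K ((QuotientGroup.mk' N).comp (MonoidHom.fst X (Equiv.Perm (Fin n))))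
        ((QuotientGroup.mk'_surjective N).comp Prod.fst_surjective) (h1.comp h2) ⊥ ⊥
        (admissible_bot U hU hc) d G hG
      rwa [relIndex_bot'] at h3
  · intro X _ _ N _ hN
    obtain ⟨ι, hι, A, hG, n, hZ, hn, ⟨e⟩, j, hj⟩ := hN
    have hfin : ∀ i, Finite (A i) := fun i => (hZ i).finite
    have h40 : ∀ i, 40 ≤ n i := by
      intro i
      have h3 : ∀ a : ℕ, 1 ≤ a → 40 ≤ ((3 * a + 2).factorial) ^ 3 := by
        intro a ha
        have h4 : (5 : ℕ).factorial ≤ (3 * a + 2).factorial := Nat.factorial_le (by omega)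
        have h5 : (5 : ℕ).factorial = 120 := rfl
        have h6 : (3 * a + 2).factorial ≤ (3 * a + 2).factorial ^ 3 :=
          Nat.le_self_pow (by omega) _
        omega
      have hfA : Finite (MulAut (A i)) := Finite.of_injective (fun a : MulAut (A i) =>
        (a : A i → A i)) DFunLike.coe_injective
      rcases hn i with ⟨-, h4⟩ | ⟨-, h4⟩
      · exact (h3 _ Nat.card_pos).trans h4
      · exact (h3 _ Nat.card_pos).trans h4
    refine ⟨fun D hD => KernelClass.iso _ _ e.symm
      (KernelClass.prod ι _ fun i => kernelClass_sym D hD (A i) (hZ i) (n i) (hn i)), ?_⟩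
    obtain ⟨U, hU, hc⟩ := small16 A n h40 X N e j hj
    exact admissible_bot U hU hc
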