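import Mathlib
import Pool.Agent.H84.ML.GalT
import Pool.Agent.H84.ML.TowerStep
import Pool.Agent.H84.L.A3_N157_AW_Dat
import Pool.Agent.H84.L.A3_N600_NS_Pa
import Pool.Agent.H84.L.A3_N600_NS_SemA
import Pool.Agent.H84.L.A3_N70_AW_Rl
import Pool.Agent.H84.L.A3_N70_EP_Stm
import Pool.Agent.H84.L.A7_T2H67_SA_Cl
import Pool.Agent.H84.L.A7_T2H67_SA_Cl2
import Pool.Agent.H84.L.A7_T2H67_SA_Theta
import Pool.Agent.H84.L.A9_W5h46_MW_All
import Pool.Agent.H84.L.A9_W5h46_MW_Defs
import Pool.Agent.H84.L.A9_W5h46_MW_Done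
import Pool.Agent.H84.L.A9_W5h46_MW_M
import Pool.Agent.H84.L.A9_W5h93_MX_Real
import Pool.Agent.H84.L.S8_H391R2_T4_Nod
import Pool.Agent.H84.L.S8_H391R2_T4_Sem
import Pool.Agent.H84.L.S8_H484R2_Cont
import Pool.Agent.H84.L.S8_R367_IG_Nod
import Pool.Agent.H84.L.S8_R367_IG_Sem
import Pool.Agent.H84.L.S8_TH444_ML_Defs
import Pool.Agent.H84.L.S8_TH444_TW_RSK
import Pool.Agent.H84.L.S8_W200_IG_Fam
import Pool.Agent.H84.L.S8_W200_IG_HF
import Pool.Agent.H84.L.S8_W200_IJ_SA
import Pool.Agent.H84.L.S8_Y60_DC_Tens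
import Pool.Agent.H84.L.S8_Y676_DSP_Simple

/-!
# Malle's conjecture for the groups `C₂ ^ (X / V) ⋊ X` and towers of groups

Let `X` be a finite group, `W ≤ V ≤ X` subgroups, and let `G` be the group `C₂ ^ (X / V) ⋊ X`, acting
on `X / W × {0, 1}` by `(x W, b) ↦ (h x W, a (x V) b)`. For `V = W` this is the wreath product
`C₂ ≀ X` for the action of `X` on `X / W`, for `V = W = 1` the wreath product `C₂ ≀ X` for the regular
action of `X`. Suppose that `W` is contained in a core-free subgroup `U` of `X` with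
`16 [X : U] ([X : U] + 1) ≤ [X : V]`.

The file `Pool/Agent/H84/ML/DefU.lean` defines a class `Tower K D` of epimorphisms of finite groups; `D`
consists of two large sets of natural numbers. Let `p : X → Γ` be in `Tower K D`. For every number
field `K` the number of isomorphism classes of extensions of `K` with the permutation group `G` and
discriminant of norm at most `B` is asymptotic to `c B ^ (1 / [V : W])` with `c > 0` if `Γ` is a Galois
group over `K`, and there are no such extensions otherwise. Hence Malle's conjecture for `G` is true,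
over all number fields, if and only if `Γ` is a Galois group over all number fields.
-/

set_option autoImplicit false

open Filter
open Pool.Agent.H84.ML

namespace Pool.Agent.Results.MP_a3214d_nt.JointTowers

/-- `Γ` is a Galois group over `K`. -/
def IsGaloisGroupOver (K Γ : Type) [Field K] [Group Γ] : Prop :=
  ∃ (L : Type) (_ : Field L) (_ : Algebra K L), IsGalois K L ∧ Nonempty (Γ ≃* (L ≃ₐ[K] L))

/-- `G ≤ S_d` is, up to a bijection `f` of `{1, ..., d}` with `X / W × {0, 1}`, the group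
`C₂ ^ (X / V) ⋊ X`: it consists of all permutations `(x W, b) ↦ (h x W, a (x V) b)`, where `h ∈ X` and
`a` is a function from `X / V` to the group of the permutations of `{0, 1}`. -/
def IsPartialWreath {X : Type} [Group X] (V W : Subgroup X) {d : ℕ}
    (G : Subgroup (Equiv.Perm (Fin d))) : Prop :=
  ∃ f : Fin d ≃ (X ⧸ W) × Bool, ∀ π : Equiv.Perm (Fin d), π ∈ G ↔
    ∃ (h : X) (a : X ⧸ V → Equiv.Perm Bool), ∀ (i : Fin d) (x : X), (f i).1 = (x : X ⧸ W) →
      f (π i) = (((h * x : X) : X ⧸ W), a (x : X ⧸ V) (f i).2)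

/-- The fields `L` between `K` and its algebraic closure, of degree `d` over `K`, whose Galois group,
acting on the embeddings, is `G` (up to numbering), and whose relative discriminant has norm at most
`B` (that is, `|d_L| ≤ B |d_K| ^ d`). -/
def Ext (K : Type) [Field K] [NumberField K] (d : ℕ) (G : Subgroup (Equiv.Perm (Fin d)))
    (B : ℝ) : Set (IntermediateField K (AlgebraicClosure K)) :=
  {L | Module.finrank K L = d ∧
    (∃ e : (L →ₐ[K] AlgebraicClosure K) ≃ Fin d, ∀ π : Equiv.Perm (Fin d),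
      π ∈ G ↔ ∃ σ : AlgebraicClosure K ≃ₐ[K] AlgebraicClosure K,
        ∀ φ : L →ₐ[K] AlgebraicClosure K, e (σ.toAlgHom.comp φ) = π (e φ)) ∧
    ∃ h : NumberField L,
      ((|@NumberField.discr L _ h| : ℤ) : ℝ) ≤ B * ((|NumberField.discr K| : ℤ) : ℝ) ^ d}

/-- `N(K, G; B)`: the number of these fields up to `K`-isomorphism. -/
noncomputable def N (K : Type) [Field K] [NumberField K] (d : ℕ)
    (G : Subgroup (Equiv.Perm (Fin d))) (B : ℝ) : ℕ :=
  Nat.card (Quot fun L L' : Ext K d G B => Nonempty (L.1 ≃ₐ[K] L'.1))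

/-- The conclusion of Malle's conjecture for `G`, over all number fields: there is `a > 0` such that
for every number field `K` there are `c > 0` and `b ≥ 1` with
`N(K, G; B) ~ c B ^ a (log B) ^ (b - 1)`. -/
def Malle (d : ℕ) (G : Subgroup (Equiv.Perm (Fin d))) : Prop :=
  ∃ a : ℝ, 0 < a ∧ ∀ (K : Type) [Field K] [NumberField K], ∃ (c : ℝ) (b : ℕ), 0 < c ∧ 1 ≤ b ∧
    Tendsto (fun B : ℝ => (N K d G B : ℝ) / (B ^ a * Real.log B ^ (b - 1))) atTop (nhds c)

/-- The index of a permutation: the sum of `l - 1` over the lengths `l` of its cycles. -/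
def ind {d : ℕ} (π : Equiv.Perm (Fin d)) : ℕ := (π.cycleType.map (fun l => l - 1)).sum

/-- The minimal index of the elements `π ≠ 1` of `G`; Malle's constant is `a(G) = 1 / minInd G`. -/
noncomputable def minInd {d : ℕ} (G : Subgroup (Equiv.Perm (Fin d))) : ℕ :=
  sInf {k : ℕ | ∃ π ∈ G, π ≠ 1 ∧ ind π = k}

/-- Malle's constant `b(K, G)`: the number of orbits of the absolute Galois group of `K` on the conjugacy
classes of the elements of `G` of minimal index; here `σ` maps the class of `π` to the class of `π ^ m`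
if `σ ζ = ζ ^ m` for all roots of unity `ζ` of order dividing `|G|`. -/
noncomputable def malleB (K : Type) [Field K] {d : ℕ} (G : Subgroup (Equiv.Perm (Fin d))) : ℕ :=
  Nat.card (Quot fun π π' : {π : Equiv.Perm (Fin d) // π ∈ G ∧ π ≠ 1 ∧ ind π = minInd G} =>
    ∃ g ∈ G, ∃ (σ : AlgebraicClosure K ≃ₐ[K] AlgebraicClosure K) (m : ℕ),
      (∀ ζ : AlgebraicClosure K, ζ ^ Nat.card G = 1 → σ ζ = ζ ^ m) ∧ π'.1 = g * π.1 ^ m * g⁻¹)

/-- Malle's conjecture for `G` over the number field `K`, with Malle's constants: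
`N(K, G; B) ~ c B ^ a(G) (log B) ^ (b(K, G) - 1)` with `c > 0`. -/
def StrongMalle (K : Type) [Field K] [NumberField K] (d : ℕ) (G : Subgroup (Equiv.Perm (Fin d))) :
    Prop :=
  ∃ c : ℝ, 0 < c ∧ Tendsto (fun B : ℝ => (N K d G B : ℝ) /
    (B ^ (1 / (minInd G : ℝ)) * Real.log B ^ (malleB K G - 1))) atTop (nhds c)

/-- Malle's constants are `a(G) = 1 / r` and `b(K, G) = 1`; if `Γ` is a Galois group over `K` then
`N(K, G; B) ~ c B ^ (1 / r)` with `c > 0`, and otherwise there is no extension of `K` with group `G`, and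
`N(K, G; B) = 0`; Malle's conjecture for `G` over `K`, with Malle's constants, holds if and only if `Γ`
is a Galois group over `K`. -/
def Criterion (K : Type) [Field K] [NumberField K] (Γ : Type) [Group Γ] (d : ℕ)
    (G : Subgroup (Equiv.Perm (Fin d))) (r : ℕ) : Prop :=
  (minInd G = r ∧ malleB K G = 1) ∧
  (IsGaloisGroupOver K Γ →
    ∃ c : ℝ, 0 < c ∧ Tendsto (fun B : ℝ => (N K d G B : ℝ) / B ^ (1 / (r : ℝ))) atTop (nhds c)) ∧
  (¬ IsGaloisGroupOver K Γ → ∀ B : ℝ, Ext K d G B = ∅ ∧ N K d G B = 0) ∧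
  (StrongMalle K d G ↔ IsGaloisGroupOver K Γ)

/-- `W ≤ V ≤ X`, and `W` is contained in a core-free subgroup `U` of `X` such that
`16 [X : U] ([X : U] + 1) ≤ [X : V]`. -/
def IsAdmissible {X : Type} [Group X] (V W : Subgroup X) : Prop :=
  W ≤ V ∧ ∃ U : Subgroup X, W ≤ U ∧ U.normalCore = ⊥ ∧ 16 * U.index * (U.index + 1) ≤ V.index

/-- Malle's conjecture for `G` is decided by `Γ`: `Criterion` holds over all number fields, and
Malle's conjecture for `G`, over all number fields, is equivalent to the realizability of `Γ` over all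
number fields; it is true if `Γ` is in the class `Peelable`. -/
def Decided (Γ : Type) [Group Γ] (d : ℕ) (G : Subgroup (Equiv.Perm (Fin d))) (r : ℕ) : Prop :=
  (∀ (K : Type) [Field K] [NumberField K], Criterion K Γ d G r) ∧
  (Malle d G ↔ ∀ (K : Type) [Field K] [NumberField K], IsGaloisGroupOver K Γ) ∧
  (Peelable Γ → Malle d G)

theorem consts (K : Type) [Field K] {X : Type} [Group X] [Finite X] (V W : Subgroup X)
    (hV : IsAdmissible V W) (d : ℕ) (G : Subgroup (Equiv.Perm (Fin d))) (hG : IsPartialWreath V W G) :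
    minInd G = W.relIndex V ∧ malleB K G = 1 := by
  obtain ⟨hle, U, hWU, hU, hc⟩ := hV
  have hyp := Pool.Agent.W5h46.MW.rest.hyp X V W U hle hWU hU hc
  obtain ⟨h1, h2⟩ := Pool.Agent.W5h46.MW.index_W hyp (G := G) hG
  have h3 : minInd G = W.relIndex V := h1.csInf_eq
  refine ⟨h3, ?_⟩
  obtain ⟨π₀, hπ, hπ1, hπi⟩ := h1.1
  unfold malleB
  rw [Nat.card_eq_one_iff_unique]
  refine ⟨⟨?_⟩, ⟨Quot.mk _ ⟨π₀, hπ, hπ1, ?_⟩⟩⟩
  · rintro ⟨x⟩ ⟨y⟩
    apply Quot.sound
    obtain ⟨g, hg, he⟩ := h2 x.1 x.2.1 y.1 y.2.1 (x.2.2.2.trans h3) (y.2.2.2.trans h3)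
    refine ⟨g, hg, 1, 1, fun ζ _ => by simp, ?_⟩
    rw [pow_one]
    exact he
  · rw [h3]
    exact hπi

theorem criterion (K : Type) [Field K] [NumberField K] {X Γ : Type} [Group X] [Finite X] [Group Γ]
    (p : X →* Γ) (hs : Function.Surjective p) (hp : Pool.Agent.TH444.TW.RSK K p) (V W : Subgroup X) (hV : IsAdmissible V W) (d : ℕ)
    (G : Subgroup (Equiv.Perm (Fin d))) (hG : IsPartialWreath V W G) :
    Criterion K Γ d G (W.relIndex V) := by
  have hcst := consts K V W hV d G hG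
  obtain ⟨hle, U, hWU, hU, hc⟩ := hV
  have hpos : IsGaloisGroupOver K Γ → ∃ c : ℝ, 0 < c ∧
      Tendsto (fun B : ℝ => (N K d G B : ℝ) / B ^ (1 / (W.relIndex V : ℝ))) atTop (nhds c) := by
    intro hΓ
    exact Pool.Agent.W5h46.MW.asymp_isoW Pool.Agent.W5h46.MW.rest K X V W U hle hWU hU hc
      (gal_of_rsk K p hs hp hΓ) G hG
  have hneg : ¬ IsGaloisGroupOver K Γ → ∀ B : ℝ, Ext K d G B = ∅ ∧ N K d G B = 0 := by
    intro hΓ B
    have hemp : Ext K d G B = ∅ := by
      rw [Set.eq_empty_iff_forall_notMem]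
      intro L hL
      obtain ⟨M, hM⟩ := Pool.Agent.W5h46.MW.gal_of_cnt Pool.Agent.W5h46.MW.rest K X V W U hle hWU hU
        hc (G := G) hG (B := B) (L := L) hL
      exact hΓ (Pool.Agent.W5h93.MX.isG_of_gal K p hs hM)
    refine ⟨hemp, ?_⟩
    have : IsEmpty (Ext K d G B) := Set.isEmpty_coe_sort.2 hemp
    have h0 : IsEmpty (Quot fun L L' : Ext K d G B => Nonempty (L.1 ≃ₐ[K] L'.1)) :=
      ⟨fun q => Quot.ind (β := fun _ => False) (fun L => this.false L) q⟩
    exact Nat.card_of_isEmpty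
  refine ⟨hcst, hpos, hneg, ?_, ?_⟩
  · rintro ⟨c, hc0, hlim⟩
    by_contra hΓ
    have h1 : Tendsto (fun B : ℝ => (N K d G B : ℝ) /
        (B ^ (1 / (minInd G : ℝ)) * Real.log B ^ (malleB K G - 1))) atTop (nhds 0) := by
      simp only [(hneg hΓ _).2, Nat.cast_zero, zero_div]
      exact tendsto_const_nhds
    exact hc0.ne' (tendsto_nhds_unique hlim h1)
  · intro hΓ
    obtain ⟨c, hc0, hlim⟩ := hpos hΓ
    refine ⟨c, hc0, ?_⟩
    rw [hcst.1, hcst.2]
    simpa using hlim

theorem malle_iff {Γ : Type} [Group Γ] {d : ℕ} {G : Subgroup (Equiv.Perm (Fin d))} {r : ℕ}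
    (hr : 0 < r) (h : ∀ (K : Type) [Field K] [NumberField K], Criterion K Γ d G r) :
    Malle d G ↔ ∀ (K : Type) [Field K] [NumberField K], IsGaloisGroupOver K Γ := by
  have hr' : (0 : ℝ) < r := by exact_mod_cast hr
  constructor
  · rintro ⟨a, ha, hM⟩ K _ _
    by_contra hΓ
    obtain ⟨c, b, hc, -, hlim⟩ := hM K
    have h0 := (h K).2.2.1 hΓ
    have h1 : Tendsto (fun B : ℝ => (N K d G B : ℝ) / (B ^ a * Real.log B ^ (b - 1))) atTop
        (nhds 0) := by
      simp only [(h0 _).2, Nat.cast_zero, zero_div]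
      exact tendsto_const_nhds
    exact hc.ne' (tendsto_nhds_unique hlim h1)
  · intro hΓ
    refine ⟨1 / (r : ℝ), by positivity, fun K _ _ => ?_⟩
    obtain ⟨c, hc0, hlim⟩ := (h K).2.1 (hΓ K)
    refine ⟨c, 1, hc0, le_rfl, ?_⟩
    simpa using hlim

theorem relIndex_pos {X : Type} [Group X] [Finite X] (V W : Subgroup X) : 0 < W.relIndex V :=
  Nat.pos_of_ne_zero (Subgroup.index_ne_zero_of_finite (H := W.subgroupOf V))

/-- the trivial subgroups -/
theorem admissible_bot {X : Type} [Group X] (U : Subgroup X) (hU : U.normalCore = ⊥)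
    (hc : 16 * U.index * (U.index + 1) ≤ Nat.card X) :
    IsAdmissible (⊥ : Subgroup X) (⊥ : Subgroup X) :=
  ⟨le_rfl, U, bot_le, hU, by rw [Subgroup.index_bot]; exact hc⟩

theorem relIndex_bot' (X : Type) [Group X] : (⊥ : Subgroup X).relIndex (⊥ : Subgroup X) = 1 :=
  Subgroup.relIndex_self _

theorem decided_of {Γ : Type} [Group Γ] [Finite Γ] {d : ℕ} {G : Subgroup (Equiv.Perm (Fin d))}
    {r : ℕ} (hr : 0 < r) (h : ∀ (K : Type) [Field K] [NumberField K], Criterion K Γ d G r) :
    Decided Γ d G r :=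
  ⟨h, malle_iff hr h, fun hY => (malle_iff hr h).2 fun K _ _ => isG_of_peelable K Γ hY⟩

end Pool.Agent.Results.MP_a3214d_nt.JointTowers

open Pool.Agent.Results.MP_a3214d_nt.JointTowers in
/-- First part: the number of extensions of `K` with the permutation group `C₂ ^ (X / V) ⋊ X` on
`X / W × {0, 1}`, for `p : X → Γ` in the class `Tower K D`. Second part: Malle's conjecture for this
group is decided by `Γ`. Third part: the wreath products `C₂ ≀ (X × S_n)` (regular action), without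
condition on `X`. -/
theorem Pool.Agent.Results.MP_a3214d_nt.JointTowers.result :
    ∃ D : Degrees, D.Large ∧
    (∀ (K : Type) [Field K] [NumberField K] (X Γ : Type) [Group X] [Finite X] [Group Γ]
      (p : X →* Γ), Tower K D p → ∀ V W : Subgroup X, IsAdmissible V W →
      ∀ (d : ℕ) (G : Subgroup (Equiv.Perm (Fin d))), IsPartialWreath V W G →
        Criterion K Γ d G (W.relIndex V)) ∧
    (∀ (X Γ : Type) [Group X] [Finite X] [Group Γ] (p : X →* Γ),
      (∀ (K : Type) [Field K] [NumberField K], Tower K D p) →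
      (∀ V W : Subgroup X, IsAdmissible V W →
        ∀ (d : ℕ) (G : Subgroup (Equiv.Perm (Fin d))), IsPartialWreath V W G →
          Decided Γ d G (W.relIndex V)) ∧
      (∀ n : ℕ, 10 ≤ n → Nat.card X ≤ n → ∀ (d : ℕ) (G : Subgroup (Equiv.Perm (Fin d))),
        IsPartialWreath (⊥ : Subgroup (X × Equiv.Perm (Fin n))) ⊥ G → Decided Γ d G 1)) := by
  have h1 := fun (K : Type) [Field K] [NumberField K] (X Γ : Type) [Group X] [Finite X] [Group Γ]
      (p : X →* Γ) (hp : Step K deg p) (V W : Subgroup X) (hV : IsAdmissible V W) (d : ℕ)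
      (G : Subgroup (Equiv.Perm (Fin d))) (hG : IsPartialWreath V W G) =>
    criterion K p hp.surj (hp.main (Finite.of_surjective p hp.surj)).2 V W hV d G hG
  refine ⟨deg, deg_large, fun K _ _ X Γ _ _ _ p hp => h1 K X Γ p hp.step, ?_⟩
  intro X Γ _ _ _ p hp
  have hfΓ : Finite Γ := Finite.of_surjective p (hp ℚ).step.surj
  refine ⟨fun V W hV d G hG => decided_of (relIndex_pos V W) fun K _ _ =>
    h1 K X Γ p (hp K).step V W hV d G hG, fun n hn hX d G hG => decided_of one_pos fun K _ _ => ?_⟩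
  obtain ⟨U, hU, hc⟩ := core_prod16 X n hn hX
  have hstep : Step K deg (p.comp (MonoidHom.fst X (Equiv.Perm (Fin n)))) :=
    Step.comp _ _ (hp K).step (step_of_cls K deg (fst_cls K X n))
  have h2 := h1 K _ _ _ hstep ⊥ ⊥ (admissible_bot U hU hc) d G hG
  rwa [relIndex_bot'] at h2
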