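import Mathlib
import Pool.Agent.H84.ML.Gal
import Pool.Agent.H84.L.A3_N600_NS_Pa
import Pool.Agent.H84.L.A3_N600_NS_SemA
import Pool.Agent.H84.L.A3_N600_ZQ_T5
import Pool.Agent.H84.L.A3_N600_ZQ_T6
import Pool.Agent.H84.L.A7_T2H67_SA_Cl
import Pool.Agent.H84.L.A7_T2H67_SA_Cl2
import Pool.Agent.H84.L.A7_T2H67_SA_Theta
import Pool.Agent.H84.L.A9_W5h46_MW_All
import Pool.Agent.H84.L.A9_W5h46_MW_Defs
import Pool.Agent.H84.L.A9_W5h46_MW_Done
import Pool.Agent.H84.L.A9_W5h46_MW_M
import Pool.Agent.H84.L.A9_W5h93_MX_Real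
import Pool.Agent.H84.L.S8_H391R2_T4_Blueprint
import Pool.Agent.H84.L.S8_H391R2_T4_Nod
import Pool.Agent.H84.L.S8_H391R2_T4_Sem
import Pool.Agent.H84.L.S8_H484R2_Cont
import Pool.Agent.H84.L.S8_TH444_ML_Defs
import Pool.Agent.H84.L.S8_TH444_TW_ClsDef
import Pool.Agent.H84.L.S8_TH444_TW_RS
import Pool.Agent.H84.L.S8_TH444_TW_RSK
import Pool.Agent.H84.L.S8_W200_IG_Fam
import Pool.Agent.H84.L.S8_W200_IG_HF
import Pool.Agent.H84.L.S8_W200_IJ_SA
import Pool.Agent.H84.L.S8_Y60_DC_StmSp
import Pool.Agent.H84.L.S8_Y60_DC_Tens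
import Pool.Agent.H84.L.S8_Y676_DSP_Simple

/-!
# Malle's conjecture for `C₂ ≀ X`, `X` an arbitrary extension by a product of wreath products

Let `X` be a finite group with a normal subgroup `N` which is isomorphic to the direct product of the
wreath products `A i ≀ S_(n i)`, where the `A i` are ARBITRARY nontrivial finite groups with trivial
centre and `n i ≥ ((3 |A i| + 2)!)^3`. There is no condition on the extension
`1 → N → X → X / N → 1`, which may permute the factors and need not split, and no condition on the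
outer automorphisms of the `A i`, or on divisibility.

Let `W ≤ V ≤ X` be subgroups such that `W` is contained in a core-free subgroup `U` of `X` with
`16 [X : U] ([X : U] + 1) ≤ [X : V]`, and let `G` be the group `C₂ ^ (X / V) ⋊ X`, acting on
`X / W × {0, 1}` (for `V = W = 1`, the wreath product `C₂ ≀ X` for the regular action of `X`; here the
condition holds if `|X / N| ≤ (n i - 3)!` for one `i`).

There is a finite group `Q` with a surjection `Q → X / N` whose kernel is contained in the Frattini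
subgroup of `Q`, such that, for every number field `K`, Malle's conjecture holds for `G` over `K` (with
Malle's constants `a = 1 / [V : W]`, `b = 1`) if `Q` is a Galois group over `K`, and there are no
extensions of `K` with group `G` if `X / N` is not a Galois group over `K`. The group `Q` is solvable
(nilpotent) if `X / N` is, and only primes which divide `|X / N|` divide `|Q|`.

So if `X / N` is solvable then Malle's conjecture for `G` over `K` follows from the theorem of
Shafarevich, and if all Sylow subgroups of `X / N` are cyclic (for example if `X / N` is cyclic) then it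
is proved here for all number fields.
-/

set_option autoImplicit false

open Filter
open Pool.Agent.H84.ML

namespace Pool.Agent.Results.MP_a3214d_nt.SolvableQuotients

/-- `Γ` is a Galois group over `K`. -/
def IsGaloisGroupOver (K Γ : Type) [Field K] [Group Γ] : Prop :=
  ∃ (L : Type) (_ : Field L) (_ : Algebra K L), IsGalois K L ∧ Nonempty (Γ ≃* (L ≃ₐ[K] L))

/-- `G ≤ S_d` is, up to a bijection `f` of `{1, ..., d}` with `X / W × {0, 1}`, the group
`C₂ ^ (X / V) ⋊ X`: it consists of all permutations `(x W, b) ↦ (h x W, a (x V) b)`, where `h ∈ X` and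
`a` is a function from `X / V` to the group of the permutations of `{0, 1}`. -/
def IsPartialWreath {X : Type} [Group X] (V W : Subgroup X) {d : ℕ}
    (G : Subgroup (Equiv.Perm (Fin d))) : Prop :=
  ∃ f : Fin d ≃ (X ⧸ W) × Bool, ∀ π : Equiv.Perm (Fin d), π ∈ G ↔
    ∃ (h : X) (a : X ⧸ V → Equiv.Perm Bool), ∀ (i : Fin d) (x : X), (f i).1 = (x : X ⧸ W) →
      f (π i) = (((h * x : X) : X ⧸ W), a (x : X ⧸ V) (f i).2)

/-- The fields `L` between `K` and its algebraic closure, of degree `d` over `K`, whose Galois group,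
acting on the embeddings, is `G` (up to numbering), and whose relative discriminant has norm at most
`B` (that is, `|d_L| ≤ B |d_K| ^ d`). -/
def Ext (K : Type) [Field K] [NumberField K] (d : ℕ) (G : Subgroup (Equiv.Perm (Fin d)))
    (B : ℝ) : Set (IntermediateField K (AlgebraicClosure K)) :=
  {L | Module.finrank K L = d ∧
    (∃ e : (L →ₐ[K] AlgebraicClosure K) ≃ Fin d, ∀ π : Equiv.Perm (Fin d),
      π ∈ G ↔ ∃ σ : AlgebraicClosure K ≃ₐ[K] AlgebraicClosure K,
        ∀ φ : L →ₐ[K] AlgebraicClosure K, e (σ.toAlgHom.comp φ) = π (e φ)) ∧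
    ∃ h : NumberField L,
      ((|@NumberField.discr L _ h| : ℤ) : ℝ) ≤ B * ((|NumberField.discr K| : ℤ) : ℝ) ^ d}

/-- `N(K, G; B)`: the number of these fields up to `K`-isomorphism. -/
noncomputable def N (K : Type) [Field K] [NumberField K] (d : ℕ)
    (G : Subgroup (Equiv.Perm (Fin d))) (B : ℝ) : ℕ :=
  Nat.card (Quot fun L L' : Ext K d G B => Nonempty (L.1 ≃ₐ[K] L'.1))

/-- The conclusion of Malle's conjecture for `G`, over all number fields: there is `a > 0` such that
for every number field `K` there are `c > 0` and `b ≥ 1` with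
`N(K, G; B) ~ c B ^ a (log B) ^ (b - 1)`. -/
def Malle (d : ℕ) (G : Subgroup (Equiv.Perm (Fin d))) : Prop :=
  ∃ a : ℝ, 0 < a ∧ ∀ (K : Type) [Field K] [NumberField K], ∃ (c : ℝ) (b : ℕ), 0 < c ∧ 1 ≤ b ∧
    Tendsto (fun B : ℝ => (N K d G B : ℝ) / (B ^ a * Real.log B ^ (b - 1))) atTop (nhds c)

/-- The index of a permutation: the sum of `l - 1` over the lengths `l` of its cycles. -/
def ind {d : ℕ} (π : Equiv.Perm (Fin d)) : ℕ := (π.cycleType.map (fun l => l - 1)).sum

/-- The minimal index of the elements `π ≠ 1` of `G`; Malle's constant is `a(G) = 1 / minInd G`. -/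
noncomputable def minInd {d : ℕ} (G : Subgroup (Equiv.Perm (Fin d))) : ℕ :=
  sInf {k : ℕ | ∃ π ∈ G, π ≠ 1 ∧ ind π = k}

/-- Malle's constant `b(K, G)`: the number of orbits of the absolute Galois group of `K` on the conjugacy
classes of the elements of `G` of minimal index; here `σ` maps the class of `π` to the class of `π ^ m`
if `σ ζ = ζ ^ m` for all roots of unity `ζ` of order dividing `|G|`. -/
noncomputable def malleB (K : Type) [Field K] {d : ℕ} (G : Subgroup (Equiv.Perm (Fin d))) : ℕ :=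
  Nat.card (Quot fun π π' : {π : Equiv.Perm (Fin d) // π ∈ G ∧ π ≠ 1 ∧ ind π = minInd G} =>
    ∃ g ∈ G, ∃ (σ : AlgebraicClosure K ≃ₐ[K] AlgebraicClosure K) (m : ℕ),
      (∀ ζ : AlgebraicClosure K, ζ ^ Nat.card G = 1 → σ ζ = ζ ^ m) ∧ π'.1 = g * π.1 ^ m * g⁻¹)

/-- Malle's conjecture for `G` over the number field `K`, with Malle's constants:
`N(K, G; B) ~ c B ^ a(G) (log B) ^ (b(K, G) - 1)` with `c > 0`. -/
def StrongMalle (K : Type) [Field K] [NumberField K] (d : ℕ) (G : Subgroup (Equiv.Perm (Fin d))) :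
    Prop :=
  ∃ c : ℝ, 0 < c ∧ Tendsto (fun B : ℝ => (N K d G B : ℝ) /
    (B ^ (1 / (minInd G : ℝ)) * Real.log B ^ (malleB K G - 1))) atTop (nhds c)

/-- `W ≤ V ≤ X`, and `W` is contained in a core-free subgroup `U` of `X` such that
`16 [X : U] ([X : U] + 1) ≤ [X : V]`. -/
def IsAdmissible {X : Type} [Group X] (V W : Subgroup X) : Prop :=
  W ≤ V ∧ ∃ U : Subgroup X, W ≤ U ∧ U.normalCore = ⊥ ∧ 16 * U.index * (U.index + 1) ≤ V.index

/-- `π` is a Frattini cover: it is surjective and its kernel is contained in the Frattini subgroup,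
the intersection of the maximal subgroups. -/
def FrattiniCover {Q Y : Type} [Group Q] [Group Y] (π : Q →* Y) : Prop :=
  Function.Surjective π ∧ π.ker ≤ frattini Q

/-- `π : Q → Y` is a Frattini cover, `Q` is solvable (nilpotent) if `Y` is, and only primes which
divide `|Y|` divide `|Q|`. -/
def GoodCover {Q Y : Type} [Group Q] [Group Y] (π : Q →* Y) : Prop :=
  FrattiniCover π ∧ (Group.IsSolvable Y → Group.IsSolvable Q) ∧
    (Group.IsNilpotent Y → Group.IsNilpotent Q) ∧
    (∀ p : ℕ, p.Prime → p ∣ Nat.card Q → p ∣ Nat.card Y)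

/-- The formula `N(K, G; B) ~ c B ^ (1 / r)`, `c > 0`, with Malle's constants
`a(G) = 1 / r`, `b(K, G) = 1`. -/
def Asymptotic (K : Type) [Field K] [NumberField K] (d : ℕ) (G : Subgroup (Equiv.Perm (Fin d)))
    (r : ℕ) : Prop :=
  (minInd G = r ∧ malleB K G = 1) ∧ StrongMalle K d G ∧
    ∃ c : ℝ, 0 < c ∧ Tendsto (fun B : ℝ => (N K d G B : ℝ) / B ^ (1 / (r : ℝ))) atTop (nhds c)

/-- Malle's conjecture for `G`, which is a group `C₂ ^ (X / V) ⋊ X`, `[V : W] = r`, is governed by the
quotient `Y` of `X` and its cover `Q`: if `Q` is a Galois group over `K` then the asymptotic formula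
holds, and if it holds for some number field `K`, or if there are any extensions of `K` with group `G`,
then `Y` is a Galois group over `K`. If all Sylow subgroups of `Y` are cyclic, then the asymptotic
formula holds over all number fields. -/
def Governed (Q Y : Type) [Group Q] [Group Y] (d : ℕ) (G : Subgroup (Equiv.Perm (Fin d)))
    (r : ℕ) : Prop :=
  (∀ (K : Type) [Field K] [NumberField K], IsGaloisGroupOver K Q → Asymptotic K d G r) ∧
  (∀ (K : Type) [Field K] [NumberField K], ¬ IsGaloisGroupOver K Y →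
    ∀ B : ℝ, Ext K d G B = ∅ ∧ N K d G B = 0) ∧
  (IsZGroup Y → (∀ (K : Type) [Field K] [NumberField K], Asymptotic K d G r) ∧ Malle d G)

/-- `N` is isomorphic to the direct product of the groups `A i ≀ S_(n i)`, where the `A i` are
nontrivial finite groups with trivial centre and `n i ≥ ((3 |A i| + 2)!) ^ 3`. -/
def IsWreathProduct {X : Type} [Group X] (N : Subgroup X) {ι : Type} (A : ι → Type)
    [∀ i, Group (A i)] (n : ι → ℕ) : Prop :=
  (∀ i, Centreless (A i)) ∧ (∀ i, ((3 * Nat.card (A i) + 2).factorial) ^ 3 ≤ n i) ∧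
    Nonempty (N ≃* (∀ i, Wreath (A i) (n i)))

theorem consts (K : Type) [Field K] {X : Type} [Group X] [Finite X] (V W : Subgroup X)
    (hV : IsAdmissible V W) (d : ℕ) (G : Subgroup (Equiv.Perm (Fin d))) (hG : IsPartialWreath V W G) :
    minInd G = W.relIndex V ∧ malleB K G = 1 := by
  obtain ⟨hle, U, hWU, hU, hc⟩ := hV
  have hyp := Pool.Agent.W5h46.MW.rest.hyp X V W U hle hWU hU hc
  obtain ⟨h1, h2⟩ := Pool.Agent.W5h46.MW.index_W hyp (G := G) hG
  have h3 : minInd G = W.relIndex V := h1.csInf_eq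
  refine ⟨h3, ?_⟩
  obtain ⟨π₀, hπ, hπ1, hπi⟩ := h1.1
  unfold malleB
  rw [Nat.card_eq_one_iff_unique]
  refine ⟨⟨?_⟩, ⟨Quot.mk _ ⟨π₀, hπ, hπ1, ?_⟩⟩⟩
  · rintro ⟨x⟩ ⟨y⟩
    apply Quot.sound
    obtain ⟨g, hg, he⟩ := h2 x.1 x.2.1 y.1 y.2.1 (x.2.2.2.trans h3) (y.2.2.2.trans h3)
    refine ⟨g, hg, 1, 1, fun ζ _ => by simp, ?_⟩
    rw [pow_one]
    exact he
  · rw [h3]
    exact hπi

theorem pos (K : Type) [Field K] [NumberField K] {X : Type} [Group X] [Finite X]
    (V W : Subgroup X) (hV : IsAdmissible V W) (d : ℕ)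
    (G : Subgroup (Equiv.Perm (Fin d))) (hG : IsPartialWreath V W G) (hX : IsGaloisGroupOver K X) :
    Asymptotic K d G (W.relIndex V) := by
  have hcst := consts K V W hV d G hG
  obtain ⟨hle, U, hWU, hU, hc⟩ := hV
  have hp : ∃ c : ℝ, 0 < c ∧
      Tendsto (fun B : ℝ => (N K d G B : ℝ) / B ^ (1 / (W.relIndex V : ℝ))) atTop (nhds c) :=
    Pool.Agent.W5h46.MW.asymp_isoW Pool.Agent.W5h46.MW.rest K X V W U hle hWU hU hc
      (gal_of_rsk K (MonoidHom.id X) Function.surjective_id
        (Pool.Agent.TH444.TW.RS.of_equiv (MulEquiv.refl X)).rsk hX) G hG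
  obtain ⟨c, hc0, hlim⟩ := id hp
  refine ⟨hcst, ⟨c, hc0, ?_⟩, hp⟩
  rw [hcst.1, hcst.2]
  simpa using hlim

theorem neg (K : Type) [Field K] [NumberField K] {X Y : Type} [Group X] [Finite X] [Group Y]
    (p : X →* Y) (hp : Function.Surjective p) (V W : Subgroup X) (hV : IsAdmissible V W) (d : ℕ)
    (G : Subgroup (Equiv.Perm (Fin d))) (hG : IsPartialWreath V W G)
    (hY : ¬ IsGaloisGroupOver K Y) (B : ℝ) : Ext K d G B = ∅ ∧ N K d G B = 0 := by
  obtain ⟨hle, U, hWU, hU, hc⟩ := hV
  have hemp : Ext K d G B = ∅ := by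
    rw [Set.eq_empty_iff_forall_notMem]
    intro L hL
    obtain ⟨M, hM⟩ := Pool.Agent.W5h46.MW.gal_of_cnt Pool.Agent.W5h46.MW.rest K X V W U hle hWU hU
      hc (G := G) hG (B := B) (L := L) hL
    exact hY (Pool.Agent.W5h93.MX.isG_of_gal K p hp hM)
  refine ⟨hemp, ?_⟩
  have : IsEmpty (Ext K d G B) := Set.isEmpty_coe_sort.2 hemp
  have h0 : IsEmpty (Quot fun L L' : Ext K d G B => Nonempty (L.1 ≃ₐ[K] L'.1)) :=
    ⟨fun q => Quot.ind (β := fun _ => False) (fun L => this.false L) q⟩
  exact Nat.card_of_isEmpty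

theorem relIndex_pos {X : Type} [Group X] [Finite X] (V W : Subgroup X) : 0 < W.relIndex V :=
  Nat.pos_of_ne_zero (Subgroup.index_ne_zero_of_finite (H := W.subgroupOf V))

theorem malle_of {d : ℕ} {G : Subgroup (Equiv.Perm (Fin d))} {r : ℕ} (hr : 0 < r)
    (h : ∀ (K : Type) [Field K] [NumberField K], Asymptotic K d G r) : Malle d G := by
  have hr' : (0 : ℝ) < r := by exact_mod_cast hr
  refine ⟨1 / (r : ℝ), by positivity, fun K _ _ => ?_⟩
  obtain ⟨-, -, c, hc0, hlim⟩ := h K
  refine ⟨c, 1, hc0, le_rfl, ?_⟩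
  simpa using hlim

theorem isG_of (K X : Type) [Field K] [Group X] (h : Nfff32c05.IsRealizable K X) :
    IsGaloisGroupOver K X := by
  obtain ⟨⟨⟨L, i1, i2, i3, e⟩⟩⟩ := h
  exact ⟨L, i1, i2, i3, ⟨e⟩⟩

theorem of_isG (K X : Type) [Field K] [Group X] (h : IsGaloisGroupOver K X) :
    Nfff32c05.IsRealizable K X := by
  obtain ⟨L, i1, i2, i3, ⟨e⟩⟩ := h
  exact ⟨⟨⟨L, i1, i2, i3, e⟩⟩⟩

end Pool.Agent.Results.MP_a3214d_nt.SolvableQuotients

open Pool.Agent.Results.MP_a3214d_nt.SolvableQuotients in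
/-- First part: `X` any finite group with a normal subgroup `N ≅ ∏ A i ≀ S_(n i)`, and the
permutation groups `G = C₂ ^ (X / V) ⋊ X` on `X / W × {0, 1}`. Second part: if `X / N` is solvable and
all finite solvable groups are Galois groups over `K` (this is the theorem of Shafarevich), then
Malle's conjecture holds for these groups over `K`. Third part: the condition on `V` and `W` is
satisfied for `V = W = 1`, the wreath product `C₂ ≀ X` for the regular action of `X`, if
`|X / N| ≤ (n i - 3)!` for one `i`. -/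
theorem Pool.Agent.Results.MP_a3214d_nt.SolvableQuotients.result :
    ∀ (X : Type) [Group X] [Finite X] (N : Subgroup X) [N.Normal] (ι : Type) [Finite ι]
      (A : ι → Type) [∀ i, Group (A i)] (n : ι → ℕ), IsWreathProduct N A n →
      (∃ (Q : Type) (_ : Group Q) (_ : Finite Q) (π : Q →* X ⧸ N), GoodCover π ∧
        ∀ V W : Subgroup X, IsAdmissible V W →
        ∀ (d : ℕ) (G : Subgroup (Equiv.Perm (Fin d))), IsPartialWreath V W G →
          Governed Q (X ⧸ N) d G (W.relIndex V)) ∧
      (Group.IsSolvable (X ⧸ N) → ∀ (K : Type) [Field K] [NumberField K],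
        (∀ (S : Type) [Group S] [Finite S], Group.IsSolvable S → IsGaloisGroupOver K S) →
        ∀ V W : Subgroup X, IsAdmissible V W →
        ∀ (d : ℕ) (G : Subgroup (Equiv.Perm (Fin d))), IsPartialWreath V W G →
          Asymptotic K d G (W.relIndex V)) ∧
      ((∃ i, N.index ≤ (n i - 3).factorial) → IsAdmissible (⊥ : Subgroup X) (⊥ : Subgroup X)) := by
  intro X _ _ N _ ι _ A _ n ⟨hZ, hn, hN⟩
  have hfin : ∀ i, Finite (A i) := fun i => (hZ i).finite
  have hnt : ∀ i, Nontrivial (A i) := fun i => (hZ i).nontrivial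
  have hfX : Finite (X ⧸ N) := inferInstance
  obtain ⟨Q, i1, i2, π, hπ, hQ⟩ := Pool.Agent.N600.ZQ.frat_main (fun i => (hZ i).center) hn X N hN
    hfX
  have hpos : ∀ (K : Type) [Field K] [NumberField K], IsGaloisGroupOver K Q →
      IsGaloisGroupOver K X := fun K _ _ h => isG_of K X (hQ.1 K (of_isG K Q h))
  refine ⟨⟨Q, i1, i2, π, ⟨hπ, hπ.solvable, hπ.nilpotent, hπ.prime⟩, ?_⟩, ?_, ?_⟩
  · intro V W hV d G hG
    refine ⟨fun K _ _ hK => pos K V W hV d G hG (hpos K hK), fun K _ _ hY B =>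
      neg K (QuotientGroup.mk' N) (QuotientGroup.mk'_surjective N) V W hV d G hG hY B, fun hz => ?_⟩
    have h1 : ∀ (K : Type) [Field K] [NumberField K], Asymptotic K d G (W.relIndex V) := by
      intro K _ _
      have h2 := Pool.Agent.N600.ZQ.z_main (fun i => (hZ i).center) hn X N hN hfX
      exact pos K V W hV d G hG (isG_of K X (h2.1 K))
    exact ⟨h1, malle_of (relIndex_pos V W) h1⟩
  · intro hs K _ _ hK V W hV d G hG
    exact pos K V W hV d G hG (hpos K (hK Q (hπ.solvable hs)))
  · rintro ⟨j, hj⟩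
    have h40 : ∀ i, 40 ≤ n i := by
      intro i
      have h4 : (5 : ℕ).factorial ≤ (3 * Nat.card (A i) + 2).factorial :=
        Nat.factorial_le (by have := Nat.card_pos (α := A i); omega)
      have h5 : (5 : ℕ).factorial = 120 := rfl
      have h6 : (3 * Nat.card (A i) + 2).factorial ≤ (3 * Nat.card (A i) + 2).factorial ^ 3 :=
        Nat.le_self_pow (by omega) _
      have h7 := hn i
      omega
    obtain ⟨e⟩ := hN
    obtain ⟨U, hU, hc⟩ := small16 A n h40 X N e j hj
    exact ⟨le_rfl, U, bot_le, hU, by rw [Subgroup.index_bot]; exact hc⟩
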